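import Mathlib
import Pool.Agent.H925R3.DD.Final

/-!
# Almost all finite covers of a product of CM elliptic curves have no rational point

`A = E₁ × ⋯ × E_r`, `Eᵢ : y² = x³ + aᵢ x + bᵢ`; `X_c : w^d + s₁ w^(d-1) + ⋯ + s_d = 0`, where
`s_k` runs through the sections of `O(k m (O₁ + ⋯ + O_r))` with integer coefficients in `[-H, H]`
(`J = ∑ (k m)^r` coefficients `c` in all). `X_c` is finite of degree `d` over `A`. All but
`O(H^(J - 1/5 + ε))` of the `(2H+1)^J` varieties `X_c` have no point over the number field `K`.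

* `MonW n` : the exponents `(i, j)`, `j ≤ 1`, `2i + 3j ≤ n`, of the basis `x^i y^j` of `L(n O)`;
* `sec c k X Y Z` : the section `s_(k+1)` in weighted homogeneous coordinates;
* `HasPointD K a b c` : `X_c` has a point over `K` (points over the points at infinity included).
-/

namespace Pool.Agent.Results.MP_627a61_nt.AlmostAllCovers

open Pool.Agent.H925R3.DC Pool.Agent.H925R3.DD

theorem result :
    -- general form: a number field `K` which embeds in `ℚ_p` and curves which have `p` affine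
    -- points modulo `p`, for every prime `p ≡ α mod M`, `p ∤ D`
    (∀ (K : Type) [Field K] [NumberField K] (r m d : ℕ), 1 ≤ r → 2 ≤ m → 2 ≤ d →
      ∀ (a b : Fin r → ℤ) (M D : ℕ) (α : ℤ), 0 < M → 0 < D → IsCoprime α (M : ℤ) →
      (∀ i, 4 * a i ^ 3 + 27 * b i ^ 2 ≠ 0) →
      (∀ (p : ℕ) [Fact p.Prime], ¬ p ∣ D → (M : ℤ) ∣ (p : ℤ) - α → Nonempty (K →+* ℚ_[p])) →
      (∀ i, ∀ p : ℕ, p.Prime → ¬ p ∣ D → (M : ℤ) ∣ (p : ℤ) - α →
        Nat.card {z : ZMod p × ZMod p // z.2 ^ 2 = z.1 ^ 3 + a i * z.1 + b i} = p) →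
      ∀ ε : ℝ, 0 < ε → ∃ C : ℝ, ∀ H : ℕ, 1 ≤ H →
        (Nat.card {c : Idx r m d → ℤ // (∀ s, |c s| ≤ H) ∧ HasPointD K a b c} : ℝ) ≤
          C * (H : ℝ) ^ ((∑ i : Fin d, (((i.1 + 1) * m : ℕ) : ℝ) ^ r) - 1 / 5 + ε)) ∧
    -- unconditional instance: `K = ℚ` or a real quadratic field, curves of `j`-invariant `0`, `1728`
    (∀ (K : Type) [Field K] [NumberField K] (n : ℕ) (θ : K), 0 < n → θ ^ 2 = (n : K) →
      IntermediateField.adjoin ℚ {θ} = ⊤ → ∀ (r m d : ℕ), 1 ≤ r → 2 ≤ m → 2 ≤ d →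
      ∀ (a b : Fin r → ℤ), (∀ i, a i * b i = 0 ∧ (a i ≠ 0 ∨ b i ≠ 0)) →
      ∀ ε : ℝ, 0 < ε → ∃ C : ℝ, ∀ H : ℕ, 1 ≤ H →
        (Nat.card {c : Idx r m d → ℤ // (∀ s, |c s| ≤ H) ∧ HasPointD K a b c} : ℝ) ≤
          C * (H : ℝ) ^ ((∑ i : Fin d, (((i.1 + 1) * m : ℕ) : ℝ) ^ r) - 1 / 5 + ε)) ∧
    -- the number of coefficients
    (∀ r m d : ℕ, 1 ≤ m →
      (Fintype.card (Idx r m d) : ℝ) = ∑ i : Fin d, (((i.1 + 1) * m : ℕ) : ℝ) ^ r) := by
  refine ⟨mainBThm, ?_, ?_⟩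
  · intro K _ _ n θ hn hθ htop r m d hr hm hd a b hab ε hε
    refine mainBThm K r m d hr hm hd a b (12 * n) 2 (-1) (by omega) (by norm_num) ?_ ?_ ?_ ?_ ε hε
    · exact ⟨-1, 0, by ring⟩
    · intro i h
      obtain ⟨h1, h2⟩ := hab i
      rcases mul_eq_zero.1 h1 with h3 | h3
      · rw [h3] at h h2
        have h4 : (b i) ^ 2 = 0 := by linarith
        rcases h2 with h2 | h2
        · exact h2 rfl
        · exact h2 (pow_eq_zero_iff two_ne_zero |>.1 h4)
      · rw [h3] at h h2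
        have h4 : (a i) ^ 3 = 0 := by linarith
        rcases h2 with h2 | h2
        · exact h2 (pow_eq_zero_iff three_ne_zero |>.1 h4)
        · exact h2 rfl
    · intro p hp hp2 hM
      have hp' := hp.out
      have h2 : 2 < p := by
        rcases hp'.eq_two_or_odd with h | h
        · exact absurd (by rw [h]) hp2
        · have := hp'.two_le
          omega
      refine Pool.Agent.H575DD.quad K n θ hn hθ htop p h2 ?_
      have h3 : ((12 * n : ℕ) : ℤ) ∣ ((p + 1 : ℕ) : ℤ) := by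
        have h4 : (p : ℤ) - (-1) = ((p + 1 : ℕ) : ℤ) := by push_cast; ring
        rwa [h4] at hM
      exact (Dvd.intro 3 (by ring)).trans (Int.natCast_dvd_natCast.1 h3)
    · intro i p hp _ hM
      have h3 : ((12 * n : ℕ) : ℤ) ∣ ((p + 1 : ℕ) : ℤ) := by
        have h4 : (p : ℤ) - (-1) = ((p + 1 : ℕ) : ℤ) := by push_cast; ring
        rwa [h4] at hM
      exact Pool.Agent.H35R6.DCCNT.cnt p (a i) (b i) hp
        ((Dvd.intro n rfl).trans (Int.natCast_dvd_natCast.1 h3)) (hab i).1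
  · intro r m d hm
    rw [Fintype.card_sigma]
    push_cast
    apply Finset.sum_congr rfl
    intro i _
    rw [Fintype.card_fun, Pool.Agent.H785R9.crdw ((i.1 + 1) * m) (by nlinarith), Fintype.card_fin]
    push_cast
    ring

end Pool.Agent.Results.MP_627a61_nt.AlmostAllCovers
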