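import Pool.Agent.H901R3.MS.AllK

/-!
# 100 % of the cyclic covers of products of CM elliptic curves, over an arbitrary number field

`K` is an arbitrary number field and `E_i : y² = x³ + a_i x` (then `√-1 ∉ K`) or `y² = x³ + b_i`
(then `√-3 ∉ K`), `a_i, b_i ∈ 𝓞 K`, `i = 1, …, r`, are elliptic curves over `K` of arbitrary rank.
`m` has a prime divisor `l` such that `K` contains the `l`-th roots of unity (always true for
`l = 2`). `S` is a set of monomials of multidegree `(d_1, …, d_r)`, `m ∣ d_i`, in the homogeneous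
coordinates of the `r` plane cubics, containing the pure monomials `∏ V_{i, σ(i)} ^ {d_i}` (for
example all monomials of this multidegree). The cyclic covers
`X_C : w ^ m = Σ_{e ∈ S} C_e V^e`, `V ∈ E_1 × … × E_r`, `C_e ∈ 𝓞 K`, are projective varieties over
`K`; for `d_i > 0` and general `C` they are smooth (branched along a smooth ample divisor). We order
the coefficients `C_e = Σ_j c_{e,j} ω_j` by the coordinates `|c_{e,j}| ≤ H` in an integral basis `ω`
and show that the number of the `X_C` having a `K`-rational point is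
`≤ (2H+1)^(n |S|) exp(-c₀ log H / log log H)`, `n = [K : ℚ]`: `100 %` of these varieties have no
`K`-rational point.

`OnK a b V` (`Pool/Agent/H901R3/MS/Stm2.lean`): the vector `V : Fin 3 → K` satisfies `V ≠ 0` and
`V₁² V₂ = V₀³ + a V₀ V₂² + b V₂³`, so it represents a `K`-rational point of the projective curve.
-/

namespace Pool.Agent.Results.MP_627a61_nt.CyclicCoversNumberFields

open Pool.Agent.H901R3.MS NumberField

theorem result (K : Type) [Field K] [NumberField K] (n : ℕ) (ω : Module.Basis (Fin n) ℤ (𝓞 K))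
    (r : ℕ) (a b : Fin r → 𝓞 K)
    (hE : ∀ i, (b i = 0 ∧ a i ≠ 0 ∧ ¬ ∃ x : K, x ^ 2 = -1) ∨
      (a i = 0 ∧ b i ≠ 0 ∧ ¬ ∃ x : K, x ^ 2 = -3))
    (l m : ℕ) (hl : l.Prime) (hlm : l ∣ m) (hm : 1 ≤ m)
    (hζ : l = 2 ∨ ∃ ζ : K, IsPrimitiveRoot ζ l) (d : Fin r → ℕ) (hd : ∀ i, m ∣ d i)
    (S : Finset (Fin r → Fin 3 → ℕ)) (hS : ∀ e ∈ S, ∀ i, ∑ j, e i j = d i)
    (hpure : ∀ σ : Fin r → Fin 3, (fun i j => if j = σ i then d i else 0) ∈ S) :
    ∃ c₀ : ℝ, 0 < c₀ ∧ ∃ H₀ : ℕ, ∀ H : ℕ, H₀ ≤ H →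
      (({c : S → Fin n → ℤ | (∀ e j, |c e j| ≤ H) ∧ ∃ (V : Fin r → Fin 3 → K) (w : K),
          (∀ i, OnK (a i : K) (b i : K) (V i)) ∧
            w ^ m = ∑ e : S, ((∑ j, c e j • ω j : 𝓞 K) : K) * ∏ i, ∏ j, V i j ^ e.1 i j}.ncard : ℕ)
              : ℝ) ≤
        (2 * (H : ℝ) + 1) ^ (S.card * n) *
          Real.exp (-c₀ * (Real.log H / Real.log (Real.log H))) :=
  mainK K n ω r a b hE l m hl hlm hm hζ d hd S hS hpure

end Pool.Agent.Results.MP_627a61_nt.CyclicCoversNumberFields
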