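import Pool.Agent.H964R2.Kob.Final

/-!
# Hyperbolic covers of powers of an elliptic curve of positive rank with exactly one rational point

`E : y² = x³ - 23 x` has infinitely many rational points. A rational point of `E` is given by
`(A, B, Z) ≠ (0, 0, 0)` with `B² = A³ - 23 A Z⁴`, up to `(A, B, Z) ~ (t² A, t³ B, t Z)`
(`x = A / Z²`, `y = B / Z³`, `O = (1, 1, 0)`, `T = (0, 0, 1)`).
For `L = O(2m ∑ {P_j = O})` on `E^r` and sections `a_i` of `L^(d - i)` let `X ⊂ L` be the complete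
variety `w^d + ∑_{i < d} a_i w^i = 0`, finite of degree `d` over `E^r`.
-/

namespace Pool.Agent.Results.MP_627a61_nt.OneRationalPoint

open Pool.Agent.H964R2.Kob

/-- For all `r`, all `m, k ≥ 1`, `d = 4k`: every real coefficient vector `c₀` for which the point
`((T, …, T), w = 0)` lies on `X_{c₀}` is a limit of rational coefficient vectors `c` for which the
complete variety `X_c` has exactly one rational point, namely `((T, …, T), w = 0)`. -/
theorem result (r m k : ℕ) (hm : 0 < m) (hk : 0 < k) (c₀ : Coef r m (4 * k) → ℝ)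
    (h₀ : c₀ ⟨⟨0, by omega⟩, fun _ => .inl 0⟩ = 0) (ε : ℝ) (hε : 0 < ε) :
    ∃ c : Coef r m (4 * k) → ℚ, (∀ s, |(c s : ℝ) - c₀ s| < ε) ∧
      ∀ (A B Z : Fin r → ℚ) (w : ℚ),
        ((∀ j, B j ^ 2 = A j ^ 3 - 23 * A j * Z j ^ 4 ∧ ¬ (A j = 0 ∧ B j = 0 ∧ Z j = 0)) ∧
          cov c A B Z w = 0) ↔ (∀ j, A j = 0 ∧ B j = 0 ∧ Z j ≠ 0) ∧ w = 0 :=
  main hm (by omega) (closure_G k) c₀ h₀ ε hε

end Pool.Agent.Results.MP_627a61_nt.OneRationalPoint
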