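import Mathlib
import Pool.Agent.H458.Sp.AllBaseProj

set_option autoImplicit false

/-!
# Rational points with few nonzero digits, in any base, on hyperbolic varieties

Let `X` be a closed subvariety of projective `n`-space over a number field `k`, given by a set `FF`
of forms with coefficients in `𝓞 k`, of degree at most `d` and with sum of the houses of the
coefficients at most `A`.  Suppose that `X` is Brody (equivalently Kobayashi) hyperbolic for one
embedding `σ` of `k` in `ℂ`.  Then every `k`-rational point `P` of `X` that has homogeneous
coordinates with an `r`-sparse expansion in some base `b ≥ 2`, that is, a representative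
`∑ b ^ (m j) v j` with `r` terms and digit vectors `v j` of house at most `B`, has homogeneous
coordinates that are algebraic integers of house at most `exp (C ^ r * (1 + log B + log S))`
with the explicit constants `C = 8 d (6 + 8 d + 4 log A)` and `S = A (r B) ^ d`, which depend
neither on the base `b` nor on `k`.  So the points of `X` which are sparse in some base are finite
in number, and their heights are effectively bounded.

Since the base varies, the representatives do not lie in finitely many translates of finitely
generated groups, and finiteness does not follow from the theorem of Laurent.

Method: expand each form in the powers of `b`; a gap principle splits the vanishing sum into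
clusters of exponents; Dirichlet's box principle gives a small vector of exponents in the same
class modulo the vectors orthogonal to all clusters; moving along the difference gives a rational
curve on `X` through `P`, which must be constant.  For large bases the exponents themselves give
the rational curve.
-/

namespace Pool.Agent.Results.MP_627a61_nt.SparsePoints

open NumberField MvPolynomial Pool.Agent.H458.Sp

theorem result (k : Type) [Field k] [NumberField k] (σ : k →+* ℂ) (n : ℕ)
    (FF : Set (MvPolynomial (Fin (n + 1)) (𝓞 k))) (d : ℕ) (hd : 1 ≤ d) (A : ℝ) (hA : 1 ≤ A)
    (hF : ∀ F ∈ FF, (∃ e, e ≤ d ∧ F.IsHomogeneous e) ∧ nrm F ≤ A)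
    (hyp : BrodyHyperbolic ((MvPolynomial.map (σ.comp (algebraMap (𝓞 k) k))) '' FF))
    (r : ℕ) (hr : 1 ≤ r) (B : ℝ) (hB : 1 ≤ B) :
    (sparsePointsAny FF r B).Finite ∧
    sparsePointsAny FF r B ⊆ smallPoints k n
      (Real.exp ((8 * d * (6 + 8 * d + 4 * Real.log A)) ^ r *
        (1 + Real.log B + Real.log (A * (r * B) ^ d)))) :=
  have h := brody_sparse_all σ FF d hd A hA hF hyp r hr B hB
  ⟨(smallPoints_finite n _).subset h, h⟩

end Pool.Agent.Results.MP_627a61_nt.SparsePoints
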